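import Mathlib
import Pool.Agent.Y423.DG.Graph
import Pool.Agent.Y423.DG.Fam
import Pool.Agent.Y423.DG.Stm

/-!
PROJECT DG423 (helper423): the asymptotic lower bound, choice of the parameters.
-/

set_option autoImplicit false

namespace Pool.Agent.Y950.DG423

open Pool.Agent.Y423.DG Real

lemma step {α₀ ε : ℝ} (h0 : 0 < α₀) (h1 : α₀ < 1 / 2) (hε : 0 < ε) (hε1 : ε < 1) (K : ℕ)
    (hK1 : 4 / α₀ ≤ K) (hK2 : 1 / (K : ℝ) ≤ α₀ * (1 - exp (-(ε / 2 * α₀)))) (k : ℕ) (hk : 1 ≤ k)
    (x y : ℝ) (hx : x = log k) (hy : y = log x) (hx0 : 0 < x)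
    (E1 : -log α₀ / (ε / 2) ≤ y) (E1' : 1 ≤ y)
    (E2 : y / α₀ * (log K + y) < exp ((ε / 2) ^ 2 * y) / (32 * -log α₀))
    (E3 : 3 ≤ x / (16 * -log α₀)) (E4 : y / α₀ + 1 ≤ x / (16 * -log α₀))
    (E5 : x * (log K + x) < exp (x / 4)) (E6 : K * x + x * (2 + exp (x / 2)) ≤ ε * exp x)
    (θ : ℝ) (hθ0 : α₀ ≤ θ) (hθ1 : θ ≤ 1 - α₀) (L n : ℕ) (hL : 1 ≤ L)
    (hn : (1 + ε) * L * k / θ ≤ n) :
    (1 - ε) * L * (y / (-log (1 - θ))) ≤ (gap n k : ℝ) := by
  set c2 := -log α₀ with hc2
  have hc2l : log 2 ≤ c2 := by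
    rw [hc2, ← log_inv]
    apply log_le_log (by norm_num)
    rw [le_inv_comm₀ (by norm_num) h0]
    linarith
  have hl2 := log_two_gt_d9
  have hc20 : 0 < c2 := by linarith
  have hθp : 0 < θ := by linarith
  have h1θ : 0 < 1 - θ := by linarith
  set q := -log (1 - θ) with hq
  have hq1 : α₀ ≤ q := by
    have := log_le_sub_one_of_pos h1θ
    rw [hq]; linarith
  have hq0 : 0 < q := by linarith
  have hq2 : q ≤ c2 := by
    rw [hq, hc2]
    have := log_le_log h0 (show α₀ ≤ 1 - θ by linarith)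
    linarith
  have hexpq : exp (-q) = 1 - θ := by rw [hq, neg_neg, exp_log h1θ]
  have hkR : (1 : ℝ) ≤ k := by exact_mod_cast hk
  have hk0 : (0 : ℝ) < k := by linarith
  have hexpx : exp x = k := by rw [hx, exp_log hk0]
  have hexpy : exp y = x := by rw [hy, exp_log hx0]
  have hyx : y ≤ x := by
    rw [← hexpy]
    have := add_one_le_exp y
    linarith
  have hy0 : 0 < y := by linarith
  set e1 := ε / 2 with he1
  have he10 : 0 < e1 := by positivity
  have he11 : e1 < 1 / 2 := by rw [he1]; linarith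
  set M := ⌊x / (16 * c2)⌋₊ with hM
  set t := ⌊(1 - e1) * y / q⌋₊ with ht
  have hM1 : (M : ℝ) ≤ x / (16 * c2) := Nat.floor_le (by positivity)
  have hM2 : x / (16 * c2) < M + 1 := Nat.lt_floor_add_one _
  have htnn : 0 ≤ (1 - e1) * y / q := by
    have : 0 ≤ 1 - e1 := by linarith
    positivity
  have ht1 : (t : ℝ) ≤ (1 - e1) * y / q := Nat.floor_le htnn
  have ht2 : (1 - e1) * y / q < t + 1 := Nat.lt_floor_add_one _
  have ht3 : (t : ℝ) ≤ y / α₀ := by
    refine ht1.trans ?_
    calc (1 - e1) * y / q ≤ 1 * y / q := by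
          apply div_le_div_of_nonneg_right _ hq0.le
          exact mul_le_mul_of_nonneg_right (by linarith) hy0.le
      _ = y / q := by rw [one_mul]
      _ ≤ y / α₀ := by gcongr
  have htM : t ≤ M := by
    have : (t : ℝ) < M := by linarith
    exact_mod_cast this.le
  have hM3 : 2 ≤ M := by
    have : (2 : ℝ) < M := by linarith
    exact_mod_cast this.le
  have hMR : (2 : ℝ) ≤ M := by exact_mod_cast hM3
  have hK0 : (0 : ℝ) < K := lt_of_lt_of_le (by positivity) hK1
  have hKα : 4 ≤ α₀ * K := by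
    rw [div_le_iff₀ h0] at hK1
    linarith
  have hK1' : (1 : ℝ) ≤ K := by
    have h5 : α₀ * K ≤ 1 / 2 * K := mul_le_mul_of_nonneg_right h1.le hK0.le
    linarith
  set P := M + t with hP
  have hPR : (P : ℝ) = M + t := by rw [hP]; push_cast; rfl
  have hP2 : (2 : ℝ) ≤ P := by
    rw [hPR]
    have : (0 : ℝ) ≤ t := Nat.cast_nonneg t
    linarith
  have hPx8 : (P : ℝ) ≤ x / (8 * c2) := by
    have h5 : (t : ℝ) ≤ M := by exact_mod_cast htM
    have h6 : x / (8 * c2) = x / (16 * c2) + x / (16 * c2) := by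
      field_simp
      ring
    rw [hPR, h6]
    linarith
  have hPx : (P : ℝ) ≤ x := by
    refine hPx8.trans ?_
    rw [div_le_iff₀ (by positivity)]
    exact le_mul_of_one_le_right hx0.le (by linarith)
  set N := K * P with hN
  have hNR : (N : ℝ) = K * P := by rw [hN]; push_cast; rfl
  have hN0 : (0 : ℝ) < N := by rw [hNR]; positivity
  set a := ⌈θ * N⌉₊ with ha
  have ha1 : θ * N ≤ a := Nat.le_ceil _
  have ha2 : (a : ℝ) < θ * N + 1 := Nat.ceil_lt_add_one (by positivity)
  have ha0 : (0 : ℝ) < a := lt_of_lt_of_le (by positivity) ha1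
  have ha3 : 1 ≤ a := by exact_mod_cast ha0
  have hgapN : θ * N + 4 * P ≤ N := by
    have h5 : 4 * (P : ℝ) ≤ (1 - θ) * N := by
      rw [hNR]
      have : α₀ * K * P ≤ (1 - θ) * K * P := by
        have : α₀ ≤ 1 - θ := by linarith
        gcongr
      have h6 : 4 * (P : ℝ) ≤ α₀ * K * P := mul_le_mul_of_nonneg_right hKα (Nat.cast_nonneg _)
      linarith
    linarith
  have hNa : a + P + 1 ≤ N := by
    have : (a : ℝ) + P + 1 < N + 1 := by linarith
    have h5 : ((a + P + 1 : ℕ) : ℝ) < ((N + 1 : ℕ) : ℝ) := by push_cast; linarith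
    exact Nat.lt_succ_iff.mp (by exact_mod_cast h5)
  have hlogN : log N ≤ log K + y := by
    rw [hNR, log_mul hK0.ne' (by linarith)]
    have : log P ≤ log x := log_le_log (by linarith) hPx
    rw [hy]; linarith
  have hlogK : 0 ≤ log K := log_nonneg hK1'
  have hlogN0 : 0 ≤ log N := by
    apply log_nonneg
    rw [hNR]
    exact one_le_mul_of_one_le_of_one_le hK1' (by linarith)
  -- the two families
  have C1 : (t : ℝ) * log N < M * (((N - a - t : ℕ) : ℝ) / N) ^ t := by
    have h5 : ((N - a - t : ℕ) : ℝ) = N - a - t := by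
      rw [Nat.cast_sub (by omega), Nat.cast_sub (by omega)]
    have h6 : exp (-(q + e1 * α₀)) ≤ ((N - a - t : ℕ) : ℝ) / N := by
      rw [le_div_iff₀ hN0, h5, neg_add, exp_add, hexpq]
      have h7 : 1 / (K : ℝ) ≤ (1 - θ) * (1 - exp (-(e1 * α₀))) := by
        refine hK2.trans ?_
        have h8 : exp (-(e1 * α₀)) ≤ 1 :=
          exp_le_one_iff.mpr (neg_nonpos.mpr (mul_nonneg he10.le h0.le))
        exact mul_le_mul_of_nonneg_right (by linarith) (by linarith)
      have h9 : 1 / (K : ℝ) * N = P := by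
        rw [hNR]
        field_simp
      have h10 : 1 / (K : ℝ) * N ≤ (1 - θ) * (1 - exp (-(e1 * α₀))) * N :=
        mul_le_mul_of_nonneg_right h7 hN0.le
      have h11 : (1 - θ) * exp (-(e1 * α₀)) * N =
        (1 - θ) * N - (1 - θ) * (1 - exp (-(e1 * α₀))) * N := by ring
      rw [h11]
      linarith
    have h11 : exp (-((1 - e1 ^ 2) * y)) ≤ (((N - a - t : ℕ) : ℝ) / N) ^ t := by
      calc exp (-((1 - e1 ^ 2) * y)) ≤ exp (-(q + e1 * α₀)) ^ t := by
            rw [← exp_nat_mul]
            apply exp_le_exp.mpr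
            have h12 : (t : ℝ) * (q + e1 * α₀) ≤ (1 - e1 ^ 2) * y := by
              calc (t : ℝ) * (q + e1 * α₀) ≤ ((1 - e1) * y / q) * (q + e1 * q) := by
                    apply mul_le_mul ht1 _ (by positivity) htnn
                    have := mul_le_mul_of_nonneg_left hq1 he10.le
                    linarith
                _ = (1 - e1 ^ 2) * y := by field_simp; ring
            linarith
        _ ≤ _ := by gcongr
    have h13 : x / (32 * c2) ≤ M := by
      have : x / (16 * c2) = x / (32 * c2) + x / (32 * c2) := by field_simp; ring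
      linarith
    have h14 : exp (e1 ^ 2 * y) / (32 * c2) ≤ M * (((N - a - t : ℕ) : ℝ) / N) ^ t := by
      calc exp (e1 ^ 2 * y) / (32 * c2) = x / (32 * c2) * exp (-((1 - e1 ^ 2) * y)) := by
            rw [← hexpy, div_mul_eq_mul_div, ← exp_add]
            congr 2
            ring
        _ ≤ _ := by
            apply mul_le_mul h13 h11 (exp_pos _).le (Nat.cast_nonneg _)
    calc (t : ℝ) * log N ≤ y / α₀ * (log K + y) :=
          mul_le_mul ht3 hlogN hlogN0 (by positivity)
      _ < _ := E2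
      _ ≤ _ := h14
  set R := ⌈√(k : ℝ)⌉₊ with hR
  have hR1 : √(k : ℝ) ≤ R := Nat.le_ceil _
  have hR2 : (R : ℝ) < √(k : ℝ) + 1 := Nat.ceil_lt_add_one (sqrt_nonneg _)
  have hsq : √(k : ℝ) = exp (x / 2) := by
    rw [← hexpx, show exp x = exp (x / 2) ^ 2 by rw [← exp_nat_mul]; congr 1; push_cast; ring]
    exact sqrt_sq (exp_pos _).le
  have C2 : (P : ℝ) * log N < R * (((N - a - P : ℕ) : ℝ) / N) ^ P := by
    have h5 : ((N - a - P : ℕ) : ℝ) = N - a - P := by
      rw [Nat.cast_sub (by omega), Nat.cast_sub (by omega)]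
    have h6 : α₀ ^ 2 ≤ ((N - a - P : ℕ) : ℝ) / N := by
      rw [le_div_iff₀ hN0, h5]
      have h7 : α₀ ^ 2 * N ≤ (1 - θ) * N / 2 := by
        have h71 : α₀ * α₀ ≤ 1 / 2 * α₀ := mul_le_mul_of_nonneg_right h1.le h0.le
        have h72 : α₀ ^ 2 ≤ (1 - θ) / 2 := by
          rw [pow_two]
          linarith
        have h73 := mul_le_mul_of_nonneg_right h72 hN0.le
        linarith
      have h8 : 4 * (P : ℝ) ≤ (1 - θ) * N := by linarith
      linarith
    have h9 : exp (-(x / 4)) ≤ (((N - a - P : ℕ) : ℝ) / N) ^ P := by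
      calc exp (-(x / 4)) ≤ (α₀ ^ 2) ^ P := by
            have h10 : α₀ ^ 2 = exp (-(2 * c2)) := by
              rw [hc2, ← rpow_natCast, rpow_def_of_pos h0]
              congr 1
              push_cast
              ring
            rw [h10, ← exp_nat_mul]
            apply exp_le_exp.mpr
            rw [le_div_iff₀ (by positivity)] at hPx8
            linarith
        _ ≤ _ := by gcongr
    calc (P : ℝ) * log N ≤ x * (log K + x) :=
          mul_le_mul hPx (by linarith) hlogN0 hx0.le
      _ < exp (x / 4) := E5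
      _ = exp (x / 2) * exp (-(x / 4)) := by rw [← exp_add]; congr 1; ring
      _ ≤ _ := by
          rw [hsq] at hR1
          exact mul_le_mul hR1 h9 (exp_pos _).le (Nat.cast_nonneg _)
  obtain ⟨A, hA1, hA2⟩ := exists_family N a t M (by exact_mod_cast hN0) (by omega) C1
  obtain ⟨B, hB1, hB2⟩ := exists_family N a P R (by exact_mod_cast hN0) (by omega) C2
  set m := ⌈(k : ℝ) / a⌉₊ with hm
  have hm1 : (k : ℝ) / a ≤ m := Nat.le_ceil _
  have hm2 : (m : ℝ) < k / a + 1 := Nat.ceil_lt_add_one (by positivity)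
  have hm0 : 1 ≤ m := by
    have : (0 : ℝ) < m := lt_of_lt_of_le (by positivity) hm1
    exact_mod_cast this
  have hkm : k ≤ a * m := by
    rw [div_le_iff₀ ha0] at hm1
    have h5 : (k : ℝ) ≤ ((a * m : ℕ) : ℝ) := by push_cast; linarith
    exact_mod_cast h5
  have C4 : L * (N * m + M * (1 + R)) ≤ n := by
    have h5 : (N : ℝ) * m ≤ k / θ + N := by
      have h6 : (N : ℝ) / a ≤ 1 / θ := by
        rw [div_le_div_iff₀ ha0 hθp]
        linarith
      calc (N : ℝ) * m ≤ N * (k / a + 1) := by gcongr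
        _ = k * (N / a) + N := by ring
        _ ≤ k * (1 / θ) + N := by gcongr
        _ = _ := by ring
    have h6 : (M : ℝ) * (1 + R) ≤ x * (2 + exp (x / 2)) := by
      rw [← hsq]
      have : (M : ℝ) ≤ x := by
        have : (0 : ℝ) ≤ t := Nat.cast_nonneg t
        linarith
      apply mul_le_mul this (by linarith) (by positivity) hx0.le
    have h7 : (N : ℝ) ≤ K * x := by
      rw [hNR]
      gcongr
    have h8 : (N : ℝ) * m + M * (1 + R) ≤ (1 + ε) * k / θ := by
      have h9 : ε * k ≤ ε * k / θ := by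
        rw [le_div_iff₀ hθp]
        exact mul_le_of_le_one_right (by positivity) (by linarith)
      have h10 : (1 + ε) * k / θ = k / θ + ε * k / θ := by ring
      rw [h10]
      rw [hexpx] at E6
      linarith
    have h9 : ((L * (N * m + M * (1 + R)) : ℕ) : ℝ) ≤ n := by
      push_cast
      calc (L : ℝ) * (N * m + M * (1 + R)) ≤ L * ((1 + ε) * k / θ) := by gcongr
        _ = (1 + ε) * L * k / θ := by ring
        _ ≤ n := hn
    exact_mod_cast h9
  have hgap := gap_lower L N m (n - L * (N * m + M * (1 + R))) M R k n a t hL hm0 hM3 ha3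
    (by omega) hkm A B hA1 hB1 hA2 hB2 (by omega)
  have hgapR : (L : ℝ) * t ≤ gap n k := by exact_mod_cast hgap
  refine le_trans ?_ hgapR
  have h5 : 1 ≤ e1 * y / q := by
    rw [le_div_iff₀ hq0, one_mul]
    rw [div_le_iff₀ he10] at E1
    linarith
  have h6 : (1 - ε) * (y / q) ≤ t := by
    have h7 : (1 - ε) * (y / q) = (1 - e1) * y / q - e1 * y / q := by rw [he1]; ring
    linarith
  calc (1 - ε) * L * (y / q) = L * ((1 - ε) * (y / q)) := by ring
    _ ≤ L * t := by gcongr

/-- **CORE**. -/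
theorem t_CORE : S_CORE := by
  intro α₀ h0 h1 ε hε
  rcases le_or_gt 1 ε with hε1 | hε1
  · refine ⟨3, fun k hk θ hθ0 hθ1 L n hL hn => ?_⟩
    have h2 : (3 : ℝ) ≤ k := by exact_mod_cast hk
    have h3 : 1 ≤ log (k : ℝ) := by
      rw [← log_exp 1]
      apply log_le_log (exp_pos _)
      have := exp_one_lt_d9
      linarith
    have h4 : 0 ≤ log (log (k : ℝ)) := log_nonneg h3
    have h5 : 0 ≤ -log (1 - θ) := by
      have := log_nonpos (show 0 ≤ 1 - θ by linarith) (by linarith)
      linarith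
    have h6 : 0 ≤ (L : ℝ) * (log (log (k : ℝ)) / -log (1 - θ)) := by positivity
    have h7 : (0 : ℝ) ≤ gap n k := Nat.cast_nonneg _
    have h8 : (1 - ε) * L * (log (log (k : ℝ)) / -log (1 - θ)) =
        (1 - ε) * (L * (log (log (k : ℝ)) / -log (1 - θ))) := by ring
    rw [h8]
    nlinarith
  · have hη : 0 < α₀ * (1 - exp (-(ε / 2 * α₀))) := by
      have : exp (-(ε / 2 * α₀)) < 1 := by
        rw [← exp_zero]
        apply exp_lt_exp.mpr
        have : 0 < ε / 2 * α₀ := by positivity
        linarith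
      have : 0 < 1 - exp (-(ε / 2 * α₀)) := by linarith
      positivity
    obtain ⟨K, hK⟩ := exists_nat_ge (max (4 / α₀) (1 / (α₀ * (1 - exp (-(ε / 2 * α₀))))))
    have hK1 : 4 / α₀ ≤ K := (le_max_left _ _).trans hK
    have hK0 : (0 : ℝ) < K := lt_of_lt_of_le (by positivity) hK1
    have hK2 : 1 / (K : ℝ) ≤ α₀ * (1 - exp (-(ε / 2 * α₀))) := by
      have := (le_max_right _ _).trans hK
      rw [div_le_iff₀ hη] at this
      rw [div_le_iff₀ hK0]
      linarith
    have hc2 : 0 < -log α₀ := by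
      have := log_neg h0 (by linarith)
      linarith
    have hlogK : 0 ≤ log (K : ℝ) := by
      apply log_nonneg
      have : 4 ≤ α₀ * K := by
        rw [div_le_iff₀ h0] at hK1
        linarith
      have h5 : α₀ * K ≤ 1 / 2 * K := mul_le_mul_of_nonneg_right h1.le hK0.le
      linarith
    -- eventual inequalities
    have ev1 : ∀ᶠ y : ℝ in Filter.atTop,
        y / α₀ * (log K + y) < exp ((ε / 2) ^ 2 * y) / (32 * -log α₀) := by
      have hA : 0 < 2 * ((log K + 1) / α₀ * (32 * -log α₀)) := by positivity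
      have h2 := (isLittleO_pow_exp_pos_mul_atTop (k := 2) (b := (ε / 2) ^ 2)
        (by positivity)).bound (inv_pos.mpr hA)
      filter_upwards [h2, Filter.eventually_ge_atTop 1] with y h3 h4
      rw [norm_eq_abs, norm_eq_abs, abs_of_pos (exp_pos _), abs_of_nonneg (by positivity),
        inv_mul_eq_div, le_div_iff₀ hA] at h3
      rw [lt_div_iff₀ (by positivity)]
      have h5 : y / α₀ * (log K + y) * (32 * -log α₀) ≤
          y ^ 2 * ((log K + 1) / α₀ * (32 * -log α₀)) := by
        have h6 : y * (log K + y) ≤ y ^ 2 * (log K + 1) := by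
          have h9 : y ≤ y ^ 2 := by nlinarith
          nlinarith [mul_le_mul_of_nonneg_right h9 hlogK]
        calc y / α₀ * (log K + y) * (32 * -log α₀) =
              (y * (log K + y)) * ((32 * -log α₀) / α₀) := by ring
          _ ≤ (y ^ 2 * (log K + 1)) * ((32 * -log α₀) / α₀) := by gcongr
          _ = _ := by ring
      have h7 := exp_pos ((ε / 2) ^ 2 * y)
      nlinarith
    have ev2 : ∀ᶠ x : ℝ in Filter.atTop, x * (log K + x) < exp (x / 4) := by
      have hA : 0 < 2 * (log K + 1) := by positivity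
      have h2 := (isLittleO_pow_exp_pos_mul_atTop (k := 2) (b := 1 / 4)
        (by positivity)).bound (inv_pos.mpr hA)
      filter_upwards [h2, Filter.eventually_ge_atTop 1] with x h3 h4
      rw [norm_eq_abs, norm_eq_abs, abs_of_pos (exp_pos _), abs_of_nonneg (by positivity),
        inv_mul_eq_div, le_div_iff₀ hA] at h3
      have h5 : x * (log K + x) ≤ x ^ 2 * (log K + 1) := by
        have h9 : x ≤ x ^ 2 := by nlinarith
        nlinarith [mul_le_mul_of_nonneg_right h9 hlogK]
      have h7 := exp_pos (x / 4)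
      have h8 : 1 / 4 * x = x / 4 := by ring
      rw [h8] at h3
      nlinarith
    have ev3 : ∀ᶠ x : ℝ in Filter.atTop, K * x + x * (2 + exp (x / 2)) ≤ ε * exp x := by
      have hA : 0 < 2 * ((K : ℝ) + 2) / ε := by positivity
      have h2 := (isLittleO_pow_exp_pos_mul_atTop (k := 1) (b := 1)
        (by positivity)).bound (inv_pos.mpr hA)
      have hA' : 0 < 2 / ε := by positivity
      have h2' := (isLittleO_pow_exp_pos_mul_atTop (k := 1) (b := 1 / 2)
        (by positivity)).bound (inv_pos.mpr hA')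
      filter_upwards [h2, h2', Filter.eventually_ge_atTop 1] with x h3 h3' h4
      rw [norm_eq_abs, norm_eq_abs, abs_of_pos (exp_pos _), abs_of_nonneg (by positivity),
        inv_mul_eq_div, le_div_iff₀ hA, pow_one, one_mul] at h3
      rw [norm_eq_abs, norm_eq_abs, abs_of_pos (exp_pos _), abs_of_nonneg (by positivity),
        inv_mul_eq_div, le_div_iff₀ hA', pow_one] at h3'
      have h5 : x * (K + 2) ≤ ε / 2 * exp x := by
        rw [mul_div_assoc', div_le_iff₀ hε] at h3
        linarith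
      have h6 : x ≤ ε / 2 * exp (x / 2) := by
        rw [mul_div_assoc', div_le_iff₀ hε] at h3'
        have h8 : 1 / 2 * x = x / 2 := by ring
        rw [h8] at h3'
        linarith
      have h7 : x * exp (x / 2) ≤ ε / 2 * exp x := by
        calc x * exp (x / 2) ≤ (ε / 2 * exp (x / 2)) * exp (x / 2) := by gcongr
          _ = ε / 2 * exp x := by rw [mul_assoc, ← exp_add]; congr 2; ring
      linarith
    have ev4 : ∀ᶠ x : ℝ in Filter.atTop, log x / α₀ + 1 ≤ x / (16 * -log α₀) := by
      have hA : 0 < α₀ / (32 * -log α₀) := by positivity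
      have h2 := isLittleO_log_id_atTop.bound hA
      filter_upwards [h2, Filter.eventually_ge_atTop (32 * -log α₀),
        Filter.eventually_ge_atTop 1] with x h3 h4 h5
      rw [norm_eq_abs, norm_eq_abs, id, abs_of_nonneg (log_nonneg h5),
        abs_of_nonneg (by linarith)] at h3
      have h6 : log x / α₀ ≤ x / (32 * -log α₀) := by
        rw [div_le_iff₀ h0]
        calc log x ≤ α₀ / (32 * -log α₀) * x := h3
          _ = _ := by ring
      have h7 : 1 ≤ x / (32 * -log α₀) := by rw [le_div_iff₀ (by positivity)]; linarith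
      have h8 : x / (16 * -log α₀) = x / (32 * -log α₀) + x / (32 * -log α₀) := by
        field_simp
        ring
      linarith
    have evall : ∀ᶠ x : ℝ in Filter.atTop, (log x / α₀ * (log K + log x) <
        exp ((ε / 2) ^ 2 * log x) / (32 * -log α₀)) ∧ -log α₀ / (ε / 2) ≤ log x ∧ 1 ≤ log x ∧
        x * (log K + x) < exp (x / 4) ∧ K * x + x * (2 + exp (x / 2)) ≤ ε * exp x ∧
        log x / α₀ + 1 ≤ x / (16 * -log α₀) ∧ 3 ≤ x / (16 * -log α₀) ∧ 0 < x := by
      filter_upwards [tendsto_log_atTop.eventually ev1,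
        tendsto_log_atTop.eventually (Filter.eventually_ge_atTop (-log α₀ / (ε / 2))),
        tendsto_log_atTop.eventually (Filter.eventually_ge_atTop 1), ev2, ev3, ev4,
        Filter.eventually_ge_atTop (3 * (16 * -log α₀)), Filter.eventually_gt_atTop 0]
        with x a1 a2 a3 a4 a5 a6 a7 a8
      exact ⟨a1, a2, a3, a4, a5, a6, by rw [le_div_iff₀ (by positivity)]; exact a7, a8⟩
    have evk := (tendsto_log_atTop.comp tendsto_natCast_atTop_atTop).eventually evall
    obtain ⟨k₀, hk₀⟩ := Filter.eventually_atTop.mp evk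
    refine ⟨max k₀ 1, fun k hk θ hθ0 hθ1 L n hL hn => ?_⟩
    obtain ⟨a1, a2, a3, a4, a5, a6, a7, a8⟩ := hk₀ k ((le_max_left _ _).trans hk)
    exact step h0 h1 hε hε1 K hK1 hK2 k ((le_max_right _ _).trans hk) (log k) (log (log k)) rfl rfl
      a8 a2 a3 a1 a7 a6 a4 a5 θ hθ0 hθ1 L n hL hn

end Pool.Agent.Y950.DG423
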